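import Pool.Agent.R287.CDb

set_option autoImplicit false

open Pool.Agent.R287.CD

namespace Pool.Agent.Results.MP_c0f1e3_an.NoFiniteRayTest

/-- Let `V` be a real or complex vector space of finite dimension at least two. For every finite
family of rays of `V` there is a finitely generated commutative linear semigroup with an orbit
coarsely dense along the union of the rays, none of whose orbits is somewhere dense. -/
theorem result {𝕜 : Type*} [RCLike 𝕜] {V : Type*} [NormedAddCommGroup V] [NormedSpace 𝕜 V]
    [FiniteDimensional 𝕜 V] (hdim : 2 ≤ Module.finrank 𝕜 V) (m : ℕ) (w : Fin m → V)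
    (hw : ∀ i, w i ≠ 0) :
    ∃ S : Subsemigroup (V ≃ₗ[𝕜] V), FGComm S ∧
      (∃ v, CoarselyDenseAlong (orb S v) (⋃ i, ray 𝕜 (w i))) ∧
      ∀ v, ¬ SomewhereDense (orb S v) :=
  negative hdim m w hw

end Pool.Agent.Results.MP_c0f1e3_an.NoFiniteRayTest
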